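import Pool.Agent.Lib_MP_a77ffe_ins.Defs
import Pool.Agent.Lib_MP_a77ffe_gt.Combi
import Pool.Agent.Lib_MP_a77ffe_gt.TopChain
import Pool.Agent.Lib_MP_a77ffe_gt.TopCover
import Pool.Agent.Lib_MP_a77ffe_gt.TopLabel

/-!
MP_a77ffe_gt: triangulations of real projective 5-space by finite abstract simplicial complexes,
in barycentric coordinates.
-/

set_option autoImplicit false

namespace Pool.Agent.RP5.Ins

open Finset Pool.Agent.RP5

lemma mk_eq_iff5 (x y : S5) :
    (Quotient.mk (antipodal 5) x : RP 5) = Quotient.mk (antipodal 5) y ↔ x = y ∨ x = -y :=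
  Quotient.eq (r := antipodal 5)

lemma isOpenMap_mk5 : IsOpenMap (Quotient.mk (antipodal 5)) := by
  intro V hV
  rw [← isQuotientMap_quotient_mk'.isOpen_preimage]
  change IsOpen (Quotient.mk (antipodal 5) ⁻¹' (Quotient.mk (antipodal 5) '' V))
  have : Quotient.mk (antipodal 5) ⁻¹' (Quotient.mk (antipodal 5) '' V) =
      V ∪ (fun x : S5 => -x) ⁻¹' V := by
    ext x
    constructor
    · rintro ⟨y, hy, hxy⟩
      rcases (mk_eq_iff5 y x).1 hxy with h | h
      · left; rwa [← h]
      · right; show -x ∈ V; rwa [← h]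
    · rintro (h | h)
      · exact ⟨x, h, rfl⟩
      · exact ⟨-x, h, (mk_eq_iff5 _ _).2 (Or.inr rfl)⟩
  rw [this]
  exact hV.union (hV.preimage continuous_neg)

lemma isCoveringMap_of {X : Type*} [TopologicalSpace X] [T2Space X] {f : S5 → X}
    (hc : Continuous f) (ho : IsOpenMap f) (hfib : ∀ x y, f x = f y ↔ x = y ∨ x = -y) :
    IsCoveringMap f := by
  rw [← isLocalHomeomorph_iff_isCoveringMap, isLocalHomeomorph_iff_isOpenEmbedding_restrict]
  intro x
  obtain ⟨U, V, hU, hV, hxU, hxV, hUV⟩ := t2_separation (ne_neg_self5 x)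
  let W : Set S5 := U ∩ (fun x : S5 => -x) ⁻¹' V
  have hW : IsOpen W := hU.inter (hV.preimage continuous_neg)
  refine ⟨W, hW.mem_nhds ⟨hxU, hxV⟩, ?_⟩
  rw [Topology.isOpenEmbedding_iff_continuous_injective_isOpenMap]
  refine ⟨hc.comp continuous_subtype_val, ?_, ho.comp hW.isOpenMap_subtype_val⟩
  intro a b hab
  rcases (hfib _ _).1 hab with h2 | h2
  · exact Subtype.ext h2
  · exfalso
    have h3 : a.1 ∈ U := a.2.1
    have h4 : -b.1 ∈ V := b.2.2
    rw [h2] at h3
    exact Set.disjoint_left.1 hUV h3 h4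

/-- The star cover of the sphere obtained from a good cover of the quotient by at most `N` sets. -/
theorem starCover_of {X : Type*} [TopologicalSpace X] [T2Space X] {f : S5 → X}
    (hc : Continuous f) (ho : IsOpenMap f) (hfib : ∀ x y, f x = f y ↔ x = y ∨ x = -y)
    {V : Type*} (U : V → Set X) (hU : ∀ v, IsOpen (U v)) (hcov : ∀ y, ∃ v, y ∈ U v)
    (hsec : ∀ v, ∃ s : X → S5, ContinuousOn s (U v) ∧ ∀ y ∈ U v, f (s y) = y)
    (hpre : ∀ v w, v ≠ w → IsPreconnected (U v ∩ U w)) {N : ℕ} (ι : V ↪ Fin N) :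
    ∃ W : Fin N → Set S5, StarCover N W := by
  have hcm : IsCoveringMap f := isCoveringMap_of hc ho hfib
  have hneg : ∀ x, f (-x) = f x := fun x => (hfib _ _).2 (Or.inr rfl)
  choose s hs hsf using hsec
  refine ⟨fun i => ⋃ v, ⋃ (_ : ι v = i), sheet f (U v) (s v), ?_, ?_, ?_, ?_⟩
  · intro i
    refine isOpen_iUnion fun v => isOpen_iUnion fun _ => ?_
    exact isOpen_sheet hc hfib (hU v) (hs v) (hsf v)
  · intro x
    obtain ⟨v, hxv⟩ := hcov (f x)
    refine ⟨ι v, ?_⟩
    rcases (hfib _ _).1 (hsf v (f x) hxv) with h1 | h1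
    · left
      exact Set.mem_iUnion.2 ⟨v, Set.mem_iUnion.2 ⟨rfl, hxv, h1⟩⟩
    · right
      refine Set.mem_iUnion.2 ⟨v, Set.mem_iUnion.2 ⟨rfl, ?_, ?_⟩⟩
      · rw [hneg]; exact hxv
      · rw [hneg]; exact h1
  · intro i x hx hx'
    simp only [Set.mem_iUnion] at hx hx'
    obtain ⟨v, hv, h1, h2⟩ := hx
    obtain ⟨w, hw, h3, h4⟩ := hx'
    obtain rfl : v = w := ι.injective (hv.trans hw.symm)
    rw [hneg] at h4
    rw [h2] at h4
    exact ne_neg_self5 x h4
  · intro i j hij x y hx hx' hy hy'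
    simp only [Set.mem_iUnion] at hx hx' hy hy'
    obtain ⟨v, hv, x1, x2⟩ := hx
    obtain ⟨w, hw, x3, x4⟩ := hx'
    obtain ⟨v', hv', y1, y2⟩ := hy
    obtain ⟨w', hw', y3, y4⟩ := hy'
    obtain rfl : v = v' := ι.injective (hv.trans hv'.symm)
    obtain rfl : w = w' := ι.injective (hw.trans hw'.symm)
    have hne : v ≠ w := by
      rintro rfl
      exact hij (hv.symm.trans hw)
    rw [hneg] at y3 y4
    have := hcm.eqOn_of_comp_eqOn (hpre v w hne)
      ((hs v).mono Set.inter_subset_left) ((hs w).mono Set.inter_subset_right)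
      (fun z hz => by
        show f (s _ z) = f (s _ z)
        rw [hsf v z hz.1, hsf w z hz.2])
      ⟨x1, x3⟩ (x2.trans x4.symm) ⟨y1, y3⟩
    rw [y2, y4] at this
    exact ne_neg_self5 y this

/-- There is no star cover of the sphere of dimension 5 by 22 sets. -/
theorem not_starCover_22 (W : Fin 22 → Set S5) : ¬ StarCover 22 W := by
  intro hW
  obtain ⟨e, φ, δ, hδ, hsym, hlt, hodd, hadj⟩ := exists_labelling 22 W hW
  exact not_ind_22 e hsym (ind_of_labelling 22 5 e φ δ hδ hlt hodd hadj)

section Real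

variable {V : Type*} [Fintype V] [DecidableEq V] (K : AbstractSimplicialComplex V)

/-- the vertex `v` as a point of the realisation -/
def vert (v : V) : V → ℝ := fun w => if w = v then 1 else 0

lemma vert_mem (v : V) : vert v ∈ realisation K := by
  refine ⟨fun w => ?_, ?_, {v}, K.singleton_mem v, fun w hw => ?_⟩
  · unfold vert; split_ifs <;> norm_num
  · simp [vert]
  · simp only [vert, ne_eq, ite_eq_right_iff, one_ne_zero, imp_false, not_not] at hw
    simp [hw]

/-- a segment from a point of the realisation towards a point with support in the support of the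
first one -/
lemma seg_mem {a b : V → ℝ} (ha : a ∈ realisation K) (hb0 : ∀ v, 0 ≤ b v) (hb1 : ∑ v, b v = 1)
    (hab : ∀ v, b v ≠ 0 → a v ≠ 0) {t : ℝ} (h0 : 0 ≤ t) (h1 : t ≤ 1) :
    (1 - t) • b + t • a ∈ realisation K := by
  obtain ⟨ha0, ha1, s, hs, hsa⟩ := ha
  refine ⟨fun v => ?_, ?_, s, hs, fun v hv => ?_⟩
  · simp only [Pi.add_apply, Pi.smul_apply, smul_eq_mul]
    have := ha0 v
    have := hb0 v
    have : 0 ≤ 1 - t := by linarith
    positivity
  · simp only [Pi.add_apply, Pi.smul_apply, smul_eq_mul, Finset.sum_add_distrib,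
      ← Finset.mul_sum, ha1, hb1]
    ring
  · by_contra hns
    have h2 : a v = 0 := by
      by_contra h3
      exact hns (hsa v h3)
    have h3 : b v = 0 := by
      by_contra h4
      exact hab v h4 h2
    apply hv
    simp [h2, h3]

/-- the open star of a vertex -/
def star (v : V) : Set (realisation K) := {x | 0 < x.1 v}

omit [DecidableEq V] in
lemma isOpen_star (v : V) : IsOpen (star K v) :=
  isOpen_lt continuous_const ((continuous_apply v).comp continuous_subtype_val)

omit [DecidableEq V] in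
lemma exists_mem_star (y : realisation K) : ∃ v, y ∈ star K v := by
  by_contra h
  push Not at h
  have h1 : ∑ v, y.1 v ≤ 0 := Finset.sum_nonpos fun v _ => not_lt.1 (h v)
  have h2 := y.2.2.1
  linarith

lemma isPreconnected_star_inter {v w : V} (hvw : v ≠ w) :
    IsPreconnected (star K v ∩ star K w) := by
  rcases Set.eq_empty_or_nonempty (star K v ∩ star K w) with h | ⟨y0, hy0⟩
  · rw [h]; exact isPreconnected_empty
  -- the midpoint
  let m : V → ℝ := fun u => (vert v u + vert w u) / 2
  have hm0 : ∀ u, 0 ≤ m u := by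
    intro u
    simp only [m, vert]
    split_ifs <;> norm_num
  have hm1 : ∑ u, m u = 1 := by
    simp only [m, ← Finset.sum_div, Finset.sum_add_distrib]
    simp [vert]
  have hmv : m v = 1 / 2 := by simp [m, vert, hvw]
  have hmw : m w = 1 / 2 := by simp [m, vert, hvw.symm]
  have hsup : ∀ u, m u ≠ 0 → u = v ∨ u = w := by
    intro u hu
    by_contra h
    push Not at h
    apply hu
    simp [m, vert, h.1, h.2]
  have hab : ∀ y : realisation K, y ∈ star K v ∩ star K w → ∀ u, m u ≠ 0 → y.1 u ≠ 0 := by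
    rintro y ⟨h1, h2⟩ u hu
    rcases hsup u hu with rfl | rfl
    · exact ne_of_gt h1
    · exact ne_of_gt h2
  have hmK : m ∈ realisation K := by
    have := seg_mem K y0.2 hm0 hm1 (hab y0 hy0) (le_refl (0 : ℝ)) zero_le_one
    simpa using this
  refine isPreconnected_of_forall (⟨m, hmK⟩ : realisation K) ?_
  intro y hy
  let γ : unitInterval → realisation K := fun t =>
    ⟨(1 - (t : ℝ)) • m + (t : ℝ) • y.1, seg_mem K y.2 hm0 hm1 (hab y hy) t.2.1 t.2.2⟩
  have hγ : Continuous γ := by
    apply Continuous.subtype_mk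
    fun_prop
  refine ⟨Set.range γ, ?_, ⟨0, ?_⟩, ⟨1, ?_⟩, isPreconnected_range hγ⟩
  · rintro _ ⟨t, rfl⟩
    have ht0 := t.2.1
    have ht1 := t.2.2
    have hyv : 0 < y.1 v := hy.1
    have hyw : 0 < y.1 w := hy.2
    constructor
    · show 0 < (1 - (t : ℝ)) * m v + (t : ℝ) * y.1 v
      rw [hmv]
      rcases eq_or_lt_of_le ht0 with h | h
      · rw [← h]; norm_num
      · have : 0 ≤ 1 - (t : ℝ) := by linarith
        positivity
    · show 0 < (1 - (t : ℝ)) * m w + (t : ℝ) * y.1 w
      rw [hmw]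
      rcases eq_or_lt_of_le ht0 with h | h
      · rw [← h]; norm_num
      · have : 0 ≤ 1 - (t : ℝ) := by linarith
        positivity
  · apply Subtype.ext
    simp [γ]
  · apply Subtype.ext
    simp [γ]

omit [DecidableEq V] in
/-- A triangulation of the real projective 5-space has at least 23 vertices. -/
theorem at_least_23 (h : Nonempty (realisation K ≃ₜ RP 5)) : 23 ≤ Fintype.card V := by
  classical
  by_contra hlt
  push Not at hlt
  obtain ⟨h⟩ := h
  let f : S5 → realisation K := fun x => h.symm (Quotient.mk (antipodal 5) x)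
  have hc : Continuous f := h.symm.continuous.comp continuous_quotient_mk'
  have ho : IsOpenMap f := h.symm.isOpenMap.comp isOpenMap_mk5
  have hfib : ∀ x y, f x = f y ↔ x = y ∨ x = -y := by
    intro x y
    rw [← mk_eq_iff5]
    exact h.symm.injective.eq_iff
  have hsurj : Function.Surjective f := by
    intro y
    obtain ⟨x, hx⟩ := Quotient.exists_rep (h y)
    refine ⟨x, ?_⟩
    show h.symm (Quotient.mk _ x) = y
    rw [hx, h.symm_apply_apply]
  have hsec : ∀ v, ∃ s : realisation K → S5, ContinuousOn s (star K v) ∧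
      ∀ y ∈ star K v, f (s y) = y := by
    intro v
    have hb0 : ∀ u, 0 ≤ vert v u := (vert_mem K v).1
    have hb1 : ∑ u, vert v u = 1 := (vert_mem K v).2.1
    have hab : ∀ y : star K v, ∀ u, vert v u ≠ 0 → y.1.1 u ≠ 0 := by
      intro y u hu
      have h1 : u = v := by
        by_contra h2
        exact hu (by simp [vert, h2])
      rw [h1]
      exact ne_of_gt y.2
    refine exists_section (isCoveringMap_of hc ho hfib) hsurj (star K v) ⟨vert v, vert_mem K v⟩
      ⟨fun p => ⟨(1 - (p.1 : ℝ)) • vert v + (p.1 : ℝ) • p.2.1.1,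
        seg_mem K p.2.1.2 hb0 hb1 (hab p.2) p.1.2.1 p.1.2.2⟩, ?_⟩ ?_ ?_
    · apply Continuous.subtype_mk
      fun_prop
    · intro a
      apply Subtype.ext
      simp
    · intro a
      apply Subtype.ext
      simp
  have hcard : Fintype.card V ≤ Fintype.card (Fin 22) := by
    rw [Fintype.card_fin]; omega
  obtain ⟨ι⟩ := Function.Embedding.nonempty_of_card_le hcard
  obtain ⟨W, hW⟩ := starCover_of hc ho hfib (star K) (isOpen_star K) (exists_mem_star K) hsec
    (fun v w hvw => isPreconnected_star_inter K hvw) ι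
  exact not_starCover_22 W hW

end Real

end Pool.Agent.RP5.Ins
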