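import Mathlib

/-!
MP_a77ffe_gt: realisation of finite abstract simplicial complexes, real projective spaces.
-/

set_option autoImplicit false

namespace Pool.Agent.RP5.Ins

/-- The geometric realisation of an abstract simplicial complex `K` whose set of vertices `V` is
finite, as a subspace of `V → ℝ`: the points with nonnegative coordinates of sum `1` (barycentric
coordinates) whose support is contained in a face of `K`. -/
def realisation {V : Type*} [Fintype V] (K : AbstractSimplicialComplex V) : Set (V → ℝ) :=
  {x | (∀ v, 0 ≤ x v) ∧ ∑ v, x v = 1 ∧ ∃ s ∈ K.faces, ∀ v, x v ≠ 0 → v ∈ s}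

/-- The antipodal relation on the unit sphere of dimension `n` in `ℝ^(n+1)`: the classes are the
pairs `{x, -x}`. -/
def antipodal (n : ℕ) : Setoid (Metric.sphere (0 : EuclideanSpace ℝ (Fin (n + 1))) 1) where
  r x y := x = y ∨ x = -y
  iseqv := by
    refine ⟨fun x => Or.inl rfl, ?_, ?_⟩
    · rintro x y (h | h)
      · exact Or.inl h.symm
      · exact Or.inr (by rw [h, neg_neg])
    · rintro x y z (h1 | h1) (h2 | h2)
      · exact Or.inl (h1.trans h2)
      · exact Or.inr (h1.trans h2)
      · exact Or.inr (by rw [h1, h2])
      · exact Or.inl (by rw [h1, h2, neg_neg])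

/-- Real projective space of dimension `n`: the quotient of the sphere of dimension `n` by the
antipodal map, with the quotient topology. -/
abbrev RP (n : ℕ) : Type := Quotient (antipodal n)

end Pool.Agent.RP5.Ins
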